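import Mathlib
import Pool.Agent.N734.AP.AllX
import Pool.Agent.R345.AP7
import Pool.Agent.H74R5.DatumC
import Pool.Agent.H74R5.Pos

set_option autoImplicit false

/-! # The corrected density for all `x` with `(log N) ^ C ≤ x ≤ exp ((log N) ^ B)`

Let `D ≠ 1` be a squarefree integer, `D ≡ 1 mod 4`, and let `b ≠ 0`; every integer with squarefree part
`D` is of the form `D b²`.  Let `r` be an odd squarefree number, write `P r n x` for the number of primes
`p ≤ x` with `gcd (p - 1, r) = 1` modulo which `n` is a primitive root, and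

`δ D r = (1 - μ(|D|) ∏_{q ∣ D, q ∣ r} 1 / (q - 2) ∏_{q ∣ D, q ∤ r} 1 / (q² - q - 1)) c_r`,
`c_r = ∏_{l ∣ r} (1 - 1 / (l - 1)) ∏_{l ∤ r} (1 - 1 / (l (l - 1)))`.

Let `1 / 2 < θ < 1`, `C > 1 / (2 θ - 1)` and `B < 1 / (2 (1 - θ))`.  For all but at most `N ^ θ` integers
`m ≤ N` the base `D b² m ^ k` satisfies `|P r (D b² m ^ k) x - δ D r π(x)| ≤ ε π(x)` for EVERY `x` with
`(log N) ^ C ≤ x ≤ exp ((log N) ^ B)`; here `k` is any even exponent all of whose odd prime factors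
divide `r`, and everything is uniform in `k`.  So EVERY power of `log N` is allowed in the exponent of the
upper end, with a power saving in the number of exceptions (`θ` is any number above `1 - 1 / (2 B)`).

For `r = 1` the exponents are `2, 4, 8, …`, all primes are counted, and `δ D 1` is the density of Q1.

New (files `N734/AP`): the exceptional integers are split by their `(log N) ^ (2 B)`-smooth part; the
product of `k` integers without small prime factors has at most `N ^ (k (B - 1) / (2 B) + o(k))`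
factorisations, which makes the large sieve work for `k` up to `(log N) ^ (B - 1)`, where divisor bounds
fail.  Libraries: helper345 (lower end of the range), helper74, helper771, helper386, helper730 (local
counts and densities), helper112 (large sieve). -/

namespace Pool.Agent.Results.MP_991e92_nt.AnyPowerOfLog

open Finset Filter Topology Classical
open Pool.Agent.H74R5 (cst cstD dEvenC Adapted cst_pos cstD_pos)
open Pool.Agent.R345.AP (badZ uniform4)
open Pool.Agent.N734.AP (badU allU)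

/-- the number of primes `p ≤ x` with `gcd (p - 1, r) = 1` modulo which `n` is a primitive root -/
noncomputable def P (r : ℕ) (n : ℤ) (x : ℕ) : ℕ :=
  ((Finset.range (x + 1)).filter (fun p : ℕ => p.Prime ∧ Nat.Coprime (p - 1) r ∧
    orderOf (n : ZMod p) = p - 1)).card

/-- `∏_{l ∣ r} (1 - 1 / (l - 1)) ∏_{l ∤ r} (1 - 1 / (l (l - 1)))` -/
noncomputable def c (r : ℕ) : ℝ :=
  (∏ l ∈ r.primeFactors, (1 - 1 / ((l : ℝ) - 1))) *
    ∏' p : Nat.Primes, (if (p : ℕ) ∣ r then 1 else 1 - 1 / (((p : ℕ) : ℝ) * (((p : ℕ) : ℝ) - 1)))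

/-- the density, with its correction factor -/
noncomputable def δ (D : ℤ) (r : ℕ) : ℝ :=
  (1 - ((ArithmeticFunction.moebius D.natAbs : ℤ) : ℝ) * ∏ q ∈ D.natAbs.primeFactors,
    (if q ∣ r then 1 / ((q : ℝ) - 2) else 1 / ((q : ℝ) ^ 2 - (q : ℝ) - 1))) * c r

theorem result (θ C B : ℝ) (hθ : 1 / 2 < θ) (hθ1 : θ < 1) (hC : 1 / (2 * θ - 1) < C)
    (hB : B < 1 / (2 * (1 - θ))) :
    ∀ D : ℤ, Squarefree D → D % 4 = 1 → D ≠ 1 → ∀ b : ℤ, b ≠ 0 →
      ∀ r : ℕ, Squarefree r → Odd r → 0 < δ D r ∧ ∀ ε : ℝ, 0 < ε →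
      ∃ N₀ : ℕ, ∀ N : ℕ, N₀ ≤ N → ∀ k : ℕ, 1 ≤ k → 2 ∣ k →
        (∀ l : ℕ, l.Prime → l ∣ k → l ≠ 2 → l ∣ r) →
        (((Finset.Icc 1 N).filter (fun m : ℕ => ∃ x : ℕ, (Real.log N) ^ C ≤ x ∧
          (x : ℝ) ≤ Real.exp ((Real.log N) ^ B) ∧
          ε * (Nat.primeCounting x : ℝ) <
            |(P r (D * b ^ 2 * (m : ℤ) ^ k) x : ℝ) - δ D r * (Nat.primeCounting x : ℝ)|)).card : ℝ)
          ≤ (N : ℝ) ^ θ := by
  have h2θ : 0 < 2 * θ - 1 := by linarith
  have h1θ : 0 < 1 - θ := by linarith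
  have hC0 : 0 < C := lt_trans (by positivity) hC
  -- an upper exponent above 1
  obtain ⟨B', hBB', hB'1, hB'θ⟩ : ∃ B' : ℝ, B ≤ B' ∧ 1 < B' ∧ B' < 1 / (2 * (1 - θ)) := by
    have h1 : 1 < 1 / (2 * (1 - θ)) := by
      rw [lt_div_iff₀ (by positivity)]
      linarith
    obtain ⟨B1, h2, h3⟩ := exists_between h1
    exact ⟨max B B1, le_max_left _ _, lt_of_lt_of_le h2 (le_max_right _ _), max_lt hB h3⟩
  have hB'0 : 0 < B' := by linarith
  -- a smaller exponent
  obtain ⟨θ', h1θ', hθ'θ, hCθ', hB'θ'⟩ : ∃ θ' : ℝ, 1 / 2 < θ' ∧ θ' < θ ∧ 1 < C * (2 * θ' - 1) ∧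
      2 * B' * (1 - θ') < 1 := by
    have h1 : 1 / 2 + 1 / (2 * C) < θ := by
      have h3 : 1 / (2 * C) < θ - 1 / 2 := by
        rw [div_lt_iff₀ h2θ] at hC
        rw [div_lt_iff₀ (by positivity)]
        linarith
      linarith
    have h2 : 1 - 1 / (2 * B') < θ := by
      have h3 : 1 - θ < 1 / (2 * B') := by
        rw [lt_div_iff₀ (by positivity)] at hB'θ ⊢
        linarith
      linarith
    obtain ⟨θ', h4, h5⟩ := exists_between (max_lt h1 h2)
    obtain ⟨h6, h7⟩ := max_lt_iff.1 h4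
    refine ⟨θ', ?_, h5, ?_, ?_⟩
    · have : 0 < 1 / (2 * C) := by positivity
      linarith
    · have h8 : 1 / (2 * C) < θ' - 1 / 2 := by linarith
      rw [div_lt_iff₀ (by positivity)] at h8
      linarith
    · have h8 : 1 - θ' < 1 / (2 * B') := by linarith
      rw [lt_div_iff₀ (by positivity)] at h8
      linarith
  obtain ⟨κ, hκ, hall⟩ := uniform4 θ' C h1θ' (by linarith) hCθ'
  refine fun D hD h4 hD1 b hb r hr hro => ⟨cstD_pos D hD h4 hD1 r (cst_pos r hro),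
    fun ε hε => ?_⟩
  let F : {k : ℕ // 0 < k ∧ 2 ∣ k ∧ Adapted r k} → Pool.Agent.H771R4.SE.Dat := fun k =>
    dEvenC D hD h4 hD1 b hb r hr hro k.1 k.2.1 k.2.2.1 k.2.2.2
  have h2a : Adapted r 2 := by
    intro l hl hl2 hne
    exact absurd ((Nat.prime_dvd_prime_iff_eq hl Nat.prime_two).1 hl2) hne
  obtain ⟨N₁, hN₁⟩ := hall _ F ⟨2, by norm_num, dvd_rfl, h2a⟩ (fun _ => rfl) (fun _ => rfl)
    (fun _ => rfl) ε hε
  obtain ⟨N₂, hN₂⟩ := allU θ' B' κ (by linarith) hB'1 hB'θ' hκ (F ⟨2, by norm_num, dvd_rfl, h2a⟩)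
    ε hε
  have hev : ∀ᶠ N : ℕ in atTop, (2 : ℝ) ≤ (N : ℝ) ^ (θ - θ') ∧ 1 ≤ Real.log N ∧ (1 : ℝ) ≤ N :=
    (((tendsto_rpow_atTop (by linarith)).comp tendsto_natCast_atTop_atTop).eventually_ge_atTop
      _).and (((Real.tendsto_log_atTop.comp tendsto_natCast_atTop_atTop).eventually_ge_atTop _).and
      (tendsto_natCast_atTop_atTop.eventually_ge_atTop _))
  obtain ⟨N₃, hN₃⟩ := eventually_atTop.1 hev
  refine ⟨max (max N₁ N₂) N₃, fun N hN k hk hk2 hkr => ?_⟩
  obtain ⟨v1, v2, v3⟩ := hN₃ N ((le_max_right _ _).trans hN)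
  have hlo := hN₁ N (((le_max_left _ _).trans (le_max_left _ _)).trans hN) ⟨k, hk, hk2, hkr⟩
  have hhi := hN₂ (F ⟨k, hk, hk2, hkr⟩) rfl rfl rfl N
    (((le_max_right _ _).trans (le_max_left _ _)).trans hN)
  have hsub : (Finset.Icc 1 N).filter (fun m : ℕ => ∃ x : ℕ, (Real.log N) ^ C ≤ x ∧
          (x : ℝ) ≤ Real.exp ((Real.log N) ^ B) ∧
          ε * (Nat.primeCounting x : ℝ) <
            |(P r (D * b ^ 2 * (m : ℤ) ^ k) x : ℝ) - δ D r * (Nat.primeCounting x : ℝ)|) ⊆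
      badZ (F ⟨k, hk, hk2, hkr⟩) ε C κ N ∪ badU (F ⟨k, hk, hk2, hkr⟩) ε κ B' N := by
    intro m hm
    rw [Finset.mem_filter] at hm
    obtain ⟨h2, x, h3, h4', h5⟩ := hm
    have e : P r (D * b ^ 2 * (m : ℤ) ^ k) x =
        Pool.Agent.H771R4.SE.cntE (F ⟨k, hk, hk2, hkr⟩) m x := by
      unfold P Pool.Agent.H771R4.SE.cntE
      apply congrArg Finset.card
      apply Finset.filter_congr_decidable _ _ _ |>.symm.trans
      apply Finset.filter_congr
      intro p _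
      simp only [F, Pool.Agent.H74R5.dEvenC, Int.cast_mul, Int.cast_pow, Int.cast_natCast]
    rw [e] at h5
    rw [Finset.mem_union]
    rcases le_total (x : ℝ) (Real.exp ((Real.log N) ^ (1 + κ))) with h6 | h6
    · left
      unfold badZ
      rw [Finset.mem_filter]
      exact ⟨h2, x, h3, h6, h5⟩
    · right
      unfold badU
      rw [Finset.mem_filter]
      refine ⟨h2, x, h6, h4'.trans (Real.exp_le_exp.2 ?_), h5⟩
      exact Real.rpow_le_rpow_of_exponent_le v2 hBB'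
  have hcard := (Finset.card_le_card hsub).trans (Finset.card_union_le _ _)
  have hcard' : (((Finset.Icc 1 N).filter (fun m : ℕ => ∃ x : ℕ, (Real.log N) ^ C ≤ x ∧
          (x : ℝ) ≤ Real.exp ((Real.log N) ^ B) ∧
          ε * (Nat.primeCounting x : ℝ) <
            |(P r (D * b ^ 2 * (m : ℤ) ^ k) x : ℝ) - δ D r * (Nat.primeCounting x : ℝ)|)).card : ℝ)
      ≤ ((badZ (F ⟨k, hk, hk2, hkr⟩) ε C κ N).card : ℝ) +
        ((badU (F ⟨k, hk, hk2, hkr⟩) ε κ B' N).card : ℝ) := by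
    exact_mod_cast hcard
  have hN0 : (0 : ℝ) < N := by linarith
  calc _ ≤ ((badZ (F ⟨k, hk, hk2, hkr⟩) ε C κ N).card : ℝ) +
        ((badU (F ⟨k, hk, hk2, hkr⟩) ε κ B' N).card : ℝ) := hcard'
    _ ≤ (N : ℝ) ^ θ' + (N : ℝ) ^ θ' := add_le_add hlo hhi
    _ = 2 * (N : ℝ) ^ θ' := by ring
    _ ≤ (N : ℝ) ^ (θ - θ') * (N : ℝ) ^ θ' := by gcongr
    _ = (N : ℝ) ^ θ := by
      rw [← Real.rpow_add hN0]; congr 1; ring

end Pool.Agent.Results.MP_991e92_nt.AnyPowerOfLog
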