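import Mathlib
import Pool.Agent.N430.AD.Clt

set_option autoImplicit false

/-! # The Gaussian law for the number of primes with a given primitive root

Let `D ≠ 1` be a squarefree integer, `D ≡ 1 mod 4`; the integers with squarefree part `D` are the numbers
`D m²`, `m ≥ 1`. Let `P(n, x)` be the number of primes `p ≤ x` modulo which `n` is a primitive root, and
`E(D, x) = ∑ 2 φ(p - 1) / (p - 1)`, the sum over the odd primes `p ≤ x` with `(D / p) = -1`.
Then `E(D, x) ~ δ(D) π(x)` with the density `δ(D)` of Q1, and for a random integer `D m²`, `m ≤ N(x)`,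
where `log N(x) / log x` tends to infinity, the number `P(D m², x)` is asymptotically normal with mean
`E(D, x)` and variance `v(D) π(x)`, where
`v(D) = δ(D) - 2 (1 - μ(|D|) ∏_{q ∣ D} (2 q - 1) / (q³ - q² - 2 q + 1)) ∏_p (1 - (2 p - 1) / (p² (p - 1)))`
is positive. -/

namespace Pool.Agent.Results.MP_991e92_nt.GaussianLaw

open Finset Filter Topology Classical

/-- the number of primes `p ≤ x` modulo which `n` is a primitive root -/
noncomputable def P (n : ℤ) (x : ℕ) : ℕ :=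
  ((Finset.range (x + 1)).filter (fun p : ℕ => p.Prime ∧ orderOf (n : ZMod p) = p - 1)).card

/-- the density of Q1 for integers with squarefree part `D`:
`(1 - μ(|D|) ∏_{q ∣ D} 1 / (q² - q - 1)) ∏_p (1 - 1 / (p (p - 1)))` -/
noncomputable def δ (D : ℤ) : ℝ :=
  (1 - ((ArithmeticFunction.moebius D.natAbs : ℤ) : ℝ) *
      ∏ q ∈ D.natAbs.primeFactors, (1 / ((q : ℝ) ^ 2 - (q : ℝ) - 1))) *
    ∏' p : Nat.Primes, (1 - 1 / (((p : ℕ) : ℝ) * (((p : ℕ) : ℝ) - 1)))

/-- the variance constant -/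
noncomputable def v (D : ℤ) : ℝ :=
  δ D - 2 * ((1 - ((ArithmeticFunction.moebius D.natAbs : ℤ) : ℝ) *
      ∏ q ∈ D.natAbs.primeFactors,
        ((2 * (q : ℝ) - 1) / ((q : ℝ) ^ 3 - (q : ℝ) ^ 2 - 2 * (q : ℝ) + 1))) *
    ∏' p : Nat.Primes, (1 - (2 * ((p : ℕ) : ℝ) - 1) / (((p : ℕ) : ℝ) ^ 2 * (((p : ℕ) : ℝ) - 1))))

/-- `∑ 2 φ(p - 1) / (p - 1)` over the odd primes `p ≤ x` with `(D / p) = -1` -/
noncomputable def E (D : ℤ) (x : ℕ) : ℝ :=
  ∑ p ∈ (Finset.range (x + 1)).filter (fun p : ℕ => p.Prime ∧ p ≠ 2 ∧ jacobiSym D p = -1),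
    2 * ((Nat.totient (p - 1) : ℝ) / ((p : ℝ) - 1))

lemma E_eq (D : ℤ) (x : ℕ) : E D x = Pool.Agent.H730R2.AA.mainT D x := by
  unfold E Pool.Agent.H730R2.AA.mainT
  have hsub : (Finset.range (x + 1)).filter (fun p : ℕ => p.Prime ∧ p ≠ 2 ∧ jacobiSym D p = -1) ⊆
      Pool.Agent.H730R2.AA.PR D x := by
    intro p hp
    unfold Pool.Agent.H730R2.AA.PR
    rw [mem_filter] at hp ⊢
    refine ⟨hp.1, hp.2.1, hp.2.2.1, ?_⟩
    intro h
    have : Fact p.Prime := ⟨hp.2.1⟩
    have h2 : jacobiSym D p = legendreSym p D := (jacobiSym.legendreSym.to_jacobiSym p D).symm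
    have h3 : legendreSym p D = 0 := by
      rw [legendreSym.eq_zero_iff, ZMod.intCast_zmod_eq_zero_iff_dvd]
      exact h
    have h4 := hp.2.2.2
    rw [h2, h3] at h4
    norm_num at h4
  rw [← Finset.sum_subset hsub]
  · refine Finset.sum_congr rfl fun p hp => ?_
    rw [mem_filter] at hp
    rw [hp.2.2.2]
    unfold Pool.Agent.H730R2.AA.rho
    rw [Nat.cast_sub hp.2.1.one_le]
    push_cast
    ring
  · intro p hp hp2
    unfold Pool.Agent.H730R2.AA.PR at hp
    rw [mem_filter] at hp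
    have : Fact p.Prime := ⟨hp.2.1⟩
    have hne : (D : ZMod p) ≠ 0 := by
      rw [Ne, ZMod.intCast_zmod_eq_zero_iff_dvd]
      exact hp.2.2.2
    have h2 : jacobiSym D p = legendreSym p D := (jacobiSym.legendreSym.to_jacobiSym p D).symm
    rcases legendreSym.eq_one_or_neg_one p hne with h | h
    · rw [h2, h]
      norm_num
    · exfalso
      apply hp2
      rw [mem_filter]
      exact ⟨hp.1, hp.2.1, hp.2.2.1, by rw [h2, h]⟩

theorem result (D : ℤ) (hD : Squarefree D) (hD4 : D % 4 = 1) (hD1 : D ≠ 1) :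
    Tendsto (fun x : ℕ => E D x / (Nat.primeCounting x : ℝ)) atTop (𝓝 (δ D)) ∧ 0 < v D ∧
    ∀ N : ℕ → ℕ, Tendsto (fun x : ℕ => Real.log (N x) / Real.log x) atTop atTop → ∀ t : ℝ,
      Tendsto (fun x : ℕ => (((Finset.Icc 1 (N x)).filter (fun m : ℕ =>
          (P (D * (m : ℤ) ^ 2) x : ℝ) ≤
            E D x + t * √(v D * (Nat.primeCounting x : ℝ)))).card : ℝ) / (N x : ℝ)) atTop
        (𝓝 (∫ u in Set.Iic t, (√(2 * Real.pi))⁻¹ * Real.exp (-u ^ 2 / 2))) := by
  have hv : Pool.Agent.N430.AD.vD D = v D := by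
    unfold Pool.Agent.N430.AD.vD v δ
    rw [Pool.Agent.N430.AD.densK_one D hD, Pool.Agent.N430.AD.densK_two D hD]
  refine ⟨?_, ?_, ?_⟩
  · have h := Pool.Agent.H730R2.AA.main_lim D hD hD4 hD1
    refine h.congr fun x => ?_
    rw [E_eq]
  · rw [← hv]
    exact Pool.Agent.N430.AD.vD_pos D hD hD4 hD1
  · intro N hN t
    have h := Pool.Agent.N430.AD.artin_clt D hD hD4 hD1 N (Pool.Agent.N430.CLT.growth N hN) t
    rw [Pool.Agent.N430.CLT.Phi_eq, hv] at h
    refine h.congr fun x => ?_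
    rw [E_eq]
    unfold Pool.Agent.H730R2.AA.cnt P
    congr!

end Pool.Agent.Results.MP_991e92_nt.GaussianLaw
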