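import Mathlib
import Pool.Agent.N430.LK.Final2

set_option autoImplicit false

/-! # Artin's conjecture at every `x ≥ (log N) ^ K`, for all integers up to `N` outside a sparse set

Let `P(n, x)` be the number of primes `p ≤ x` modulo which `n` is a primitive root, and let `T(k, x)` be
the set of the primes `p ≤ x` such that every odd prime factor of `p - 1` exceeds `x ^ (1 / k)`.  In
`T(k, x)` the expected relative density of the primes with primitive root `n = D m²`, where `D ≡ 1 mod 4`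
is squarefree, is `δ(D) = (1 - μ(|D|) ∏_{q ∣ D} 1 / (q - 2)) / 2`.

For every `ε > 0` there is `k` such that for all `η > 0` and all `A` there is `K` with the following
property, for all large `N`.

* For EVERY `x ≥ (log N) ^ K` the set `T(k, x)` has at least `x / (log x)²` elements, and there are at most
  `(log N) ^ K` integers `n` and a set `𝓑` of integers `b > log x`, at most `y ^ η` of them up to `y`, for
  every `y ≤ N`, such that every other integer `n = D m²` with `0 < |n| ≤ N`, `D ≡ 1 mod 4` squarefree and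
  `|D| ∉ 𝓑` is a primitive root for `(δ(D) + O(ε)) |T(k, x)|` of the primes in `T(k, x)`.
* There are at most `(log N) ^ K` integers `n`, and a set `𝓑` with at most `(log N) ^ K y ^ η` elements
  `≤ y`, all greater than `log log N`, such that every other `n = D m²`, `|n| ≤ N`, `D ≠ 1`, `|D| ∉ 𝓑`
  satisfies `P(n, x) ≥ x / (12 (log x)²)` for EVERY `x` with `(log N) ^ K ≤ x ≤ exp ((log N) ^ A)`.
* At most `N ^ η` of the squarefree integers `n ≡ 1 mod 4`, `n ≠ 1`, `|n| ≤ N` fail to satisfy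
  `P(n, x) ≥ x / (12 (log x)²)` for every such `x`.  In particular for all of the others the least odd
  prime with primitive root `n` is at most `(log N) ^ K + 1`. -/

namespace Pool.Agent.Results.MP_991e92_nt.LinnikForArtinPrimes

open Finset Filter Classical

/-- the number of primes `p ≤ x` modulo which `n` is a primitive root -/
noncomputable def P (n : ℤ) (x : ℕ) : ℕ :=
  ((Finset.range (x + 1)).filter (fun p : ℕ => p.Prime ∧ orderOf (n : ZMod p) = p - 1)).card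

/-- the primes `p ≤ x` such that every odd prime factor of `p - 1` exceeds `x ^ (1 / k)` -/
noncomputable def T (k x : ℕ) : Finset ℕ :=
  (Finset.range (x + 1)).filter (fun p : ℕ => p.Prime ∧
    ∀ q : ℕ, q.Prime → q ∣ p - 1 → q = 2 ∨ (x : ℝ) ^ (1 / (k : ℝ)) < q)

/-- the number of the primes in `T k x` modulo which `n` is a primitive root -/
noncomputable def PT (n : ℤ) (k x : ℕ) : ℕ :=
  ((T k x).filter (fun p : ℕ => orderOf (n : ZMod p) = p - 1)).card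

/-- the expected relative density in `T k x` for the integers with squarefree part `D` -/
noncomputable def δ (D : ℤ) : ℝ :=
  1 / 2 * (1 - ((ArithmeticFunction.moebius D.natAbs : ℤ) : ℝ) *
    ∏ q ∈ D.natAbs.primeFactors, (1 / ((q : ℝ) - 2)))

lemma T_eq (k x : ℕ) : T k x = Pool.Agent.Y855.TT x (Pool.Agent.N430.LK.zf k x) := by
  unfold T Pool.Agent.Y855.TT Pool.Agent.N430.LK.zf
  ext p
  rw [mem_filter, mem_filter, mem_range, mem_Icc]
  have hx0 : (0 : ℝ) ≤ (x : ℝ) ^ (1 / (k : ℝ)) := by positivity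
  constructor
  · rintro ⟨h1, h2, h3⟩
    refine ⟨⟨h2.pos, by omega⟩, h2, fun q hq hqp => ?_⟩
    rw [Pool.Agent.Y855.mem_OP] at hq
    obtain ⟨hqp1, hq3, hqz⟩ := hq
    rcases h3 q hqp1 hqp with h | h
    · omega
    · have := (Nat.floor_lt hx0).2 h
      omega
  · rintro ⟨h1, h2, h3⟩
    refine ⟨by omega, h2, fun q hq hqp => ?_⟩
    by_contra hcon
    push Not at hcon
    refine h3 q (Pool.Agent.Y855.mem_OP.2 ⟨hq, ?_, ?_⟩) hqp
    · have := hq.two_le
      omega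
    · exact Nat.le_floor hcon.2

theorem result (ε : ℝ) (hε : 0 < ε) : ∃ k : ℕ, 1 ≤ k ∧ ∀ η : ℝ, 0 < η → ∀ A : ℕ,
    ∃ K N₀ : ℕ, ∀ N : ℕ, N₀ ≤ N →
      (∀ x : ℕ, (Real.log N) ^ K ≤ x →
        (x : ℝ) / (Real.log x) ^ 2 ≤ (T k x).card ∧
        ∃ (𝓔 : Finset ℤ) (𝓑 : Finset ℕ), (𝓔.card : ℝ) ≤ (Real.log N) ^ K ∧
          (∀ b ∈ 𝓑, Real.log x < b) ∧
          (∀ y : ℕ, y ≤ N → ((𝓑.filter (fun b => b ≤ y)).card : ℝ) ≤ (y : ℝ) ^ η) ∧
          ∀ n D m : ℤ, n = D * m ^ 2 → n ≠ 0 → |n| ≤ N → Squarefree D → D % 4 = 1 →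
            n ∉ 𝓔 → D.natAbs ∉ 𝓑 →
              |(PT n k x : ℝ) - δ D * (T k x).card| ≤ ε * (T k x).card) ∧
      (∃ (𝓔 : Finset ℤ) (𝓑 : Finset ℕ), (𝓔.card : ℝ) ≤ (Real.log N) ^ K ∧
        (∀ b ∈ 𝓑, Real.log (Real.log N) < b) ∧
        (∀ y : ℕ, y ≤ N →
          ((𝓑.filter (fun b => b ≤ y)).card : ℝ) ≤ (Real.log N) ^ K * (y : ℝ) ^ η) ∧
        ∀ n D m : ℤ, n = D * m ^ 2 → n ≠ 0 → |n| ≤ N → Squarefree D → D % 4 = 1 → D ≠ 1 →
          n ∉ 𝓔 → D.natAbs ∉ 𝓑 →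
            ∀ x : ℕ, (Real.log N) ^ K ≤ x → (x : ℝ) ≤ Real.exp ((Real.log N) ^ A) →
              (x : ℝ) / (12 * (Real.log x) ^ 2) ≤ P n x) ∧
      (((Finset.Icc (-(N : ℤ)) N).filter (fun n : ℤ => Squarefree n ∧ n % 4 = 1 ∧ n ≠ 1 ∧
        ∃ x : ℕ, (Real.log N) ^ K ≤ x ∧ (x : ℝ) ≤ Real.exp ((Real.log N) ^ A) ∧
          (P n x : ℝ) < (x : ℝ) / (12 * (Real.log x) ^ 2))).card : ℝ) ≤ (N : ℝ) ^ η := by
  obtain ⟨k, hk, h1⟩ := Pool.Agent.N430.LK.one_x' ε hε
  refine ⟨k, hk, fun η hη A => ?_⟩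
  obtain ⟨K₁, h1⟩ := h1 η hη
  obtain ⟨K₂, h2⟩ := Pool.Agent.N430.LK.all_struct η hη A
  obtain ⟨K₃, h3⟩ := Pool.Agent.N430.LK.all_sqfree η hη A
  obtain ⟨N₀, h⟩ := eventually_atTop.1 ((h1 (K₁ + K₂ + K₃) (by omega)).and
    ((h2 (K₁ + K₂ + K₃) (by omega)).and (h3 (K₁ + K₂ + K₃) (by omega))))
  refine ⟨K₁ + K₂ + K₃, N₀, fun N hN => ?_⟩
  obtain ⟨g1, g2, g3⟩ := h N hN
  have habs : ∀ n : ℤ, |n| ≤ (N : ℤ) → n.natAbs ≤ N := by
    intro n hn
    rw [Int.abs_eq_natAbs] at hn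
    exact_mod_cast hn
  have hP : ∀ (n : ℤ) (x : ℕ), P n x = Pool.Agent.N430.PS.cntP n x := fun n x => rfl
  have hPT : ∀ (n : ℤ) (x : ℕ), PT n k x =
      (Pool.Agent.Y855.PR n x (Pool.Agent.N430.LK.zf k x)).card := by
    intro n x
    unfold PT Pool.Agent.Y855.PR
    rw [T_eq]
  refine ⟨fun x hx => ?_, ?_, ?_⟩
  · obtain ⟨a1, E, B, a2, a3, a4, a5⟩ := g1 x hx
    rw [T_eq]
    refine ⟨a1, E, B, a2, a3, a4, fun n D m hn hn0 hnN hD hD4 hE hB => ?_⟩
    rw [hPT]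
    exact a5 n D m hn hn0 (habs n hnN) hD hD4 hE hB
  · obtain ⟨E, B, a2, a3, a4, a5⟩ := g2
    refine ⟨E, B, a2, a3, a4, fun n D m hn hn0 hnN hD hD4 hD1 hE hB x hx1 hx2 => ?_⟩
    rw [hP]
    exact a5 n D m hn hn0 (habs n hnN) hD hD4 hD1 hE hB x hx1 hx2
  · apply g3
    intro n hn
    rw [mem_filter] at hn
    exact hn

end Pool.Agent.Results.MP_991e92_nt.LinnikForArtinPrimes
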