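import Mathlib
import Pool.Agent.N430.PS.Dens

set_option autoImplicit false

/-! # Artin's primitive root conjecture on average with a power-saving error, at every `x` at once

Let `P(n, x)` be the number of primes `p ≤ x` modulo which `n` is a primitive root. For an integer `B` and
an exponent `r ≥ 1` let `E(B, r, x) = ∑_{p ≤ x} G(B, r, p)`, where `G(B, r, p)` is the proportion of the
`a ∈ [1, p - 1]` for which `B a ^ r` is a primitive root modulo `p`.

* For the integers `D m²` with squarefree part `D ≡ 1 mod 4`, `D ≠ 1`, the number `E(D, 2, x)` is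
  asymptotic to `δ(D) π(x)`, with the density `δ(D)` of Q1.
* For every `k ≥ 1` there is `C` such that for all integers `B`, all `r ≥ 1`, `N ≥ 2` and `λ > 0`, all but
  at most `C N / λ` of the integers `m ≤ N` satisfy
  `|P(B m ^ r, x) - E(B, r, x)| ≤ λ x ^ (1 - 1 / (2 k)) (log N) ^ ((k + 5) / 2)`
  for EVERY `x` with `1 ≤ x ≤ N ^ (k / 2)`. For `k = 1` the error is `λ √x (log N)³`, for every
  `x ≤ √N`. -/

namespace Pool.Agent.Results.MP_991e92_nt.PowerSaving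

open Finset Filter Topology Classical

/-- the number of primes `p ≤ x` modulo which `n` is a primitive root -/
noncomputable def P (n : ℤ) (x : ℕ) : ℕ :=
  ((Finset.range (x + 1)).filter (fun p : ℕ => p.Prime ∧ orderOf (n : ZMod p) = p - 1)).card

/-- the proportion of the `a` in `[1, p-1]` for which `B a ^ r` is a primitive root modulo `p` -/
noncomputable def G (B : ℤ) (r p : ℕ) : ℝ :=
  (((Finset.Icc 1 (p - 1)).filter
    (fun a : ℕ => orderOf ((B * (a : ℤ) ^ r : ℤ) : ZMod p) = p - 1)).card : ℝ) / ((p : ℝ) - 1)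

/-- `∑_{p ≤ x} G(B, r, p)` -/
noncomputable def E (B : ℤ) (r x : ℕ) : ℝ :=
  ∑ p ∈ (Finset.range (x + 1)).filter Nat.Prime, G B r p

/-- the density of Q1 for integers with squarefree part `D`:
`(1 - μ(|D|) ∏_{q ∣ D} 1 / (q² - q - 1)) ∏_p (1 - 1 / (p (p - 1)))` -/
noncomputable def δ (D : ℤ) : ℝ :=
  (1 - ((ArithmeticFunction.moebius D.natAbs : ℤ) : ℝ) *
      ∏ q ∈ D.natAbs.primeFactors, (1 / ((q : ℝ) ^ 2 - (q : ℝ) - 1))) *
    ∏' p : Nat.Primes, (1 - 1 / (((p : ℕ) : ℝ) * (((p : ℕ) : ℝ) - 1)))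

theorem result :
    (∀ D : ℤ, Squarefree D → D % 4 = 1 → D ≠ 1 →
      Tendsto (fun x : ℕ => E D 2 x / (Nat.primeCounting x : ℝ)) atTop (𝓝 (δ D))) ∧
    ∀ k : ℕ, 1 ≤ k → ∃ C : ℝ, 0 < C ∧ ∀ (B : ℤ) (r : ℕ), 1 ≤ r → ∀ N : ℕ, 2 ≤ N → ∀ l : ℝ, 0 < l →
      (((Finset.Icc 1 N).filter (fun m : ℕ => ∃ x : ℕ, 1 ≤ x ∧ x ^ 2 ≤ N ^ k ∧
        l * (x : ℝ) ^ (1 - 1 / (2 * (k : ℝ))) * Real.log N ^ (((k : ℝ) + 5) / 2) <
          |(P (B * (m : ℤ) ^ r) x : ℝ) - E B r x|)).card : ℝ) ≤ C * N / l := by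
  refine ⟨?_, ?_⟩
  · intro D hD hD4 hD1
    exact Pool.Agent.N430.PS.EE_lim D hD hD4 hD1
  · intro k hk
    obtain ⟨s, rfl⟩ : ∃ s, k = s + 1 := ⟨k - 1, by omega⟩
    obtain ⟨C, hC, h⟩ := Pool.Agent.N430.PS.weak s
    refine ⟨C, hC, fun B r hr N hN l hl => ?_⟩
    refine le_trans (le_of_eq ?_) (h B r (by omega) N hN l hl)
    unfold Pool.Agent.N430.PS.bad
    have hlog : 0 ≤ Real.log N := Real.log_nonneg (by exact_mod_cast (by omega : 1 ≤ N))
    have h2 : Real.log N ^ ((((s + 1 : ℕ) : ℝ) + 5) / 2) = (√(Real.log N)) ^ (s + 6) := by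
      rw [Real.sqrt_eq_rpow, ← Real.rpow_natCast (Real.log N ^ (1 / 2 : ℝ)), ← Real.rpow_mul hlog]
      congr 1
      push_cast
      ring
    rw [h2]
    push_cast
    rfl

end Pool.Agent.Results.MP_991e92_nt.PowerSaving
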